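import Mathlib

/-!
# Under GCH every regular uncountable cardinal carries a complete filter without the Galvin property

The filter is generated by an independent family of `κ⁺` sets together with the sets with small
complement.
-/

set_option autoImplicit false

namespace Pool.Agent.Results.MP_45cf3b_lc.GalvinFails

open Cardinal Set

universe u

/-- The generalized continuum hypothesis: `2 ^ μ = μ⁺` for every infinite cardinal `μ`. -/
def GCH : Prop := ∀ μ : Cardinal.{u}, ℵ₀ ≤ μ → (2 : Cardinal.{u}) ^ μ = Order.succ μ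

/-- `F` is `κ`-complete: the intersection of any nonempty family of fewer than `κ` members of `F`
belongs to `F`. -/
def IsComplete (κ : Cardinal.{u}) {X : Type u} (F : Filter X) : Prop :=
  ∀ S : Set (Set X), S.Nonempty → #S < κ → (∀ s ∈ S, s ∈ F) → ⋂₀ S ∈ F

/-- The Galvin property of a filter: every sequence of members of `F` indexed by `κ⁺` has a
subsequence of length `κ` whose intersection belongs to `F`. -/
def HasGalvin (κ : Cardinal.{u}) {X : Type u} (F : Filter X) : Prop :=
  ∀ A : (Order.succ κ).ord.ToType → Set X, (∀ i, A i ∈ F) →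
    ∃ I : Set (Order.succ κ).ord.ToType, #I = κ ∧ (⋂ i ∈ I, A i) ∈ F

/-- Few small subsets. -/
theorem mk_small_le {κ : Cardinal.{u}} (hκ : κ.IsRegular)
    (hpow : ∀ μ : Cardinal.{u}, μ < κ → (2 : Cardinal.{u}) ^ μ ≤ κ) {Y : Type u} (hY : #Y = κ) :
    #{s : Set Y // #s < κ} ≤ κ := by
  classical
  -- it is enough to treat `Y = κ.ord.ToType`
  have key : #{s : Set κ.ord.ToType // #s < κ} ≤ κ := by
    have hcard : #κ.ord.ToType = κ := by rw [Cardinal.mk_toType, Cardinal.card_ord]
    have hIio : ∀ i : κ.ord.ToType, #(Iio i : Set κ.ord.ToType) < κ := by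
      intro i
      have := Cardinal.mk_Iio_lt i (by rw [hcard, Ordinal.type_toType])
      rwa [hcard] at this
    have hb : ∀ s : {s : Set κ.ord.ToType // #s < κ}, ∃ b : κ.ord.ToType, s.1 ⊆ Iio b := by
      rintro ⟨s, hs⟩
      by_contra hcon
      push Not at hcon
      have hcover : (univ : Set κ.ord.ToType) ⊆ ⋃ a ∈ s, Iic a := by
        intro b _
        have := hcon b
        rw [not_subset] at this
        obtain ⟨a, ha, hab⟩ := this
        simp only [mem_iUnion]
        exact ⟨a, ha, mem_Iic.2 (not_lt.1 hab)⟩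
      have hlt : #(⋃ a ∈ s, Iic a : Set κ.ord.ToType) < κ := by
        rw [Cardinal.card_biUnion_lt_iff_forall_of_isRegular hκ hs]
        intro a _
        have h1 : #(Iio a : Set κ.ord.ToType) < κ := hIio a
        have h2 : (Iic a : Set κ.ord.ToType) = insert a (Iio a) := by
          ext x; simp [le_iff_eq_or_lt]
        rw [h2]
        refine lt_of_le_of_lt (Cardinal.mk_insert_le) ?_
        exact Cardinal.add_lt_of_lt hκ.aleph0_le h1 (lt_of_lt_of_le Cardinal.one_lt_aleph0
          hκ.aleph0_le)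
      have : #κ.ord.ToType < κ := by
        rw [← Cardinal.mk_univ]
        exact lt_of_le_of_lt (Cardinal.mk_le_mk_of_subset hcover) hlt
      rw [hcard] at this
      exact lt_irrefl _ this
    choose b hb using hb
    let f : {s : Set κ.ord.ToType // #s < κ} → (Σ b : κ.ord.ToType, Set (Iio b : Set κ.ord.ToType)) :=
      fun s => ⟨b s, {x | x.1 ∈ s.1}⟩
    have hf : Function.Injective f := by
      intro s t hst
      simp only [f, Sigma.mk.injEq] at hst
      obtain ⟨h1, h2⟩ := hst
      apply Subtype.ext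
      have hs := hb s
      have ht := hb t
      rw [← h1] at ht
      generalize b s = bs at *
      subst h1
      have h3 := eq_of_heq h2
      ext x
      constructor
      · intro hx
        have : (⟨x, hs hx⟩ : (Iio (b t) : Set κ.ord.ToType)) ∈
            {x : (Iio (b t) : Set κ.ord.ToType) | x.1 ∈ s.1} := hx
        rw [h3] at this
        exact this
      · intro hx
        have : (⟨x, ht hx⟩ : (Iio (b t) : Set κ.ord.ToType)) ∈
            {x : (Iio (b t) : Set κ.ord.ToType) | x.1 ∈ t.1} := hx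
        rw [← h3] at this
        exact this
    refine (Cardinal.mk_le_of_injective hf).trans ?_
    rw [Cardinal.mk_sigma]
    refine (Cardinal.sum_le_sum _ (fun _ => κ) ?_).trans ?_
    · intro i
      rw [Cardinal.mk_set]
      exact hpow _ (hIio i)
    · rw [Cardinal.sum_const, Cardinal.lift_id, Cardinal.lift_id, hcard,
        Cardinal.mul_eq_self hκ.aleph0_le]
  have hYe : #Y = #κ.ord.ToType := by rw [hY, Cardinal.mk_toType, Cardinal.card_ord]
  obtain ⟨e⟩ := Cardinal.eq.1 hYe
  refine le_trans ?_ key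
  let g : {s : Set Y // #s < κ} → {s : Set κ.ord.ToType // #s < κ} :=
    fun s => ⟨e '' s.1, lt_of_le_of_lt Cardinal.mk_image_le s.2⟩
  refine Cardinal.mk_le_of_injective (f := g) ?_
  intro s t hst
  apply Subtype.ext
  have := congrArg Subtype.val hst
  exact e.injective.image_injective this

/-- An independent family. -/
theorem exists_independent {κ : Cardinal.{u}} (hκ : κ.IsRegular)
    (hpow : ∀ μ : Cardinal.{u}, μ < κ → (2 : Cardinal.{u}) ^ μ ≤ κ) {X : Type u} (hX : #X = κ) :
    ∃ A : (Order.succ κ).ord.ToType → Set X, ∀ (J : Set (Order.succ κ).ord.ToType), #J < κ →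
      ∀ i ∉ J, κ ≤ #((⋂ j ∈ J, A j) \ A i : Set X) := by
  classical
  let Y : Type u := κ.ord.ToType
  have hY : #Y = κ := by rw [Cardinal.mk_toType, Cardinal.card_ord]
  let B : Type u := {s : Set Y // #s < κ}
  have hB : #B = κ := by
    apply le_antisymm (mk_small_le hκ hpow hY)
    have hsing : ∀ y : Y, #({y} : Set Y) < κ := by
      intro y
      rw [Cardinal.mk_singleton]
      exact lt_of_lt_of_le Cardinal.one_lt_aleph0 hκ.aleph0_le
    have h0 : #Y ≤ #B := by
      refine Cardinal.mk_le_of_injective (f := fun y : Y => (⟨{y}, hsing y⟩ : B)) ?_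
      intro y z h
      have := congrArg Subtype.val h
      exact Set.singleton_injective this
    exact hY.symm.le.trans h0
  let P : Type u := B × {S : Set B // #S < κ}
  have hP : #P ≤ #X := by
    rw [Cardinal.mk_prod, Cardinal.lift_id, Cardinal.lift_id, hB, hX]
    exact (mul_le_mul' le_rfl (mk_small_le hκ hpow hB)).trans (Cardinal.mul_eq_self hκ.aleph0_le).le
  obtain ⟨ι⟩ := Cardinal.le_def _ _ |>.1 hP
  have hI : #(Order.succ κ).ord.ToType ≤ #(Set Y) := by
    rw [Cardinal.mk_toType, Cardinal.card_ord, Cardinal.mk_set, hY, Order.succ_le_iff]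
    exact Cardinal.cantor κ
  obtain ⟨c⟩ := Cardinal.le_def _ _ |>.1 hI
  -- trace of the subset `c i` on a small set
  let tr : (Order.succ κ).ord.ToType → B → B :=
    fun i s => ⟨c i ∩ s.1, lt_of_le_of_lt (Cardinal.mk_le_mk_of_subset inter_subset_right) s.2⟩
  let A : (Order.succ κ).ord.ToType → Set X := fun i => ι '' {p : P | tr i p.1 ∈ p.2.1}
  refine ⟨A, ?_⟩
  intro J hJ i hi
  -- points which separate `c i` from the `c j`
  have hsep : ∀ j : J, ∃ y : Y, ¬ (y ∈ c j.1 ↔ y ∈ c i) := by
    rintro ⟨j, hj⟩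
    by_contra hcon
    push Not at hcon
    have : c j = c i := by
      ext y
      exact hcon y
    exact hi (c.injective this ▸ hj)
  choose sep hsep using hsep
  let s : Set Y := range sep
  have hs : #s < κ := lt_of_le_of_lt Cardinal.mk_range_le hJ
  have hins : ∀ y : Y, #(insert y s : Set Y) < κ := by
    intro y
    refine lt_of_le_of_lt Cardinal.mk_insert_le ?_
    exact Cardinal.add_lt_of_lt hκ.aleph0_le hs (lt_of_lt_of_le Cardinal.one_lt_aleph0 hκ.aleph0_le)
  let S : B → Set B := fun t => range (fun j : J => tr j.1 t)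
  have hS : ∀ t, #(S t) < κ := fun t => lt_of_le_of_lt Cardinal.mk_range_le hJ
  let q : (sᶜ : Set Y) → X := fun y => ι (⟨insert y.1 s, hins y.1⟩, ⟨S ⟨insert y.1 s, hins y.1⟩, hS _⟩)
  have hq : Function.Injective q := by
    intro y z h
    have h1 := ι.injective h
    have h2 : insert y.1 s = insert z.1 s := congrArg (fun p : P => p.1.1) h1
    have h3 : y.1 ∈ insert z.1 s := h2 ▸ mem_insert _ _
    rcases h3 with h3 | h3
    · exact Subtype.ext h3
    · exact absurd h3 y.2
  have hqm : ∀ y, q y ∈ ((⋂ j ∈ J, A j) \ A i : Set X) := by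
    intro y
    constructor
    · simp only [mem_iInter]
      intro j hj
      refine ⟨_, ?_, rfl⟩
      exact mem_range_self (⟨j, hj⟩ : J)
    · rintro ⟨p, hp, hpe⟩
      have h1 := ι.injective hpe
      rw [h1] at hp
      obtain ⟨j, hj⟩ := hp
      have h2 : c j.1 ∩ insert y.1 s = c i ∩ insert y.1 s := congrArg Subtype.val hj
      have h3 : sep j ∈ insert y.1 s := Or.inr ⟨j, rfl⟩
      apply hsep j
      constructor
      · intro h4
        have : sep j ∈ c i ∩ insert y.1 s := h2 ▸ ⟨h4, h3⟩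
        exact this.1
      · intro h4
        have : sep j ∈ c j.1 ∩ insert y.1 s := h2 ▸ ⟨h4, h3⟩
        exact this.1
  have hcompl : #(sᶜ : Set Y) = κ := by
    have h1 : #Y = #(sᶜ : Set Y) := by
      have : Infinite Y := Cardinal.infinite_iff.2 (hY ▸ hκ.aleph0_le)
      exact (Cardinal.mk_compl_of_infinite s (hY ▸ hs)).symm
    rw [← h1, hY]
  refine hcompl.symm.le.trans ?_
  exact Cardinal.mk_le_of_injective (f := fun y => (⟨q y, hqm y⟩ : ((⋂ j ∈ J, A j) \ A i : Set X)))
    (fun y z h => hq (congrArg Subtype.val h))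

/-- The filter. -/
theorem exists_filter {κ : Cardinal.{u}} (hκ : κ.IsRegular)
    (hpow : ∀ μ : Cardinal.{u}, μ < κ → (2 : Cardinal.{u}) ^ μ ≤ κ) {X : Type u} (hX : #X = κ) :
    ∃ F : Filter X, F.NeBot ∧ IsComplete κ F ∧ (∀ B : Set X, #B < κ → Bᶜ ∈ F) ∧
      ¬ HasGalvin κ F := by
  classical
  obtain ⟨A, hA⟩ := exists_independent hκ hpow hX
  have hlt : ∀ J : Set (Order.succ κ).ord.ToType, #J ≤ κ → ∃ i, i ∉ J := by
    intro J hJ
    by_contra hcon
    push Not at hcon
    have h1 : J = Set.univ := eq_univ_of_forall hcon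
    rw [h1, Cardinal.mk_univ, Cardinal.mk_toType, Cardinal.card_ord] at hJ
    exact absurd hJ (not_le_of_gt (Order.lt_succ κ))
  have hsmall : ∀ {Z : Type u} (S T : Set Z), #S < κ → #T < κ → #(S ∪ T : Set Z) < κ := by
    intro Z S T hS hT
    exact lt_of_le_of_lt (Cardinal.mk_union_le S T) (Cardinal.add_lt_of_lt hκ.aleph0_le hS hT)
  have hzero : ∀ {Z : Type u}, #(∅ : Set Z) < κ := by
    intro Z
    rw [Cardinal.mk_eq_zero]
    exact lt_of_lt_of_le Cardinal.aleph0_pos hκ.aleph0_le
  let F : Filter X :=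
    { sets := {S | ∃ (J : Set (Order.succ κ).ord.ToType) (B : Set X), #J < κ ∧ #B < κ ∧
        (⋂ j ∈ J, A j) \ B ⊆ S}
      univ_sets := ⟨∅, ∅, hzero, hzero, subset_univ _⟩
      sets_of_superset := by
        rintro S T ⟨J, B, hJ, hB, h⟩ hST
        exact ⟨J, B, hJ, hB, h.trans hST⟩
      inter_sets := by
        rintro S T ⟨J, B, hJ, hB, h⟩ ⟨J', B', hJ', hB', h'⟩
        refine ⟨J ∪ J', B ∪ B', hsmall _ _ hJ hJ', hsmall _ _ hB hB', ?_⟩
        rintro x ⟨hx, hxB⟩
        simp only [mem_iInter] at hx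
        refine ⟨h ⟨?_, fun hb => hxB (Or.inl hb)⟩, h' ⟨?_, fun hb => hxB (Or.inr hb)⟩⟩
        · simp only [mem_iInter]
          exact fun j hj => hx j (Or.inl hj)
        · simp only [mem_iInter]
          exact fun j hj => hx j (Or.inr hj) }
  have hmem : ∀ S : Set X, S ∈ F ↔ ∃ (J : Set (Order.succ κ).ord.ToType) (B : Set X),
      #J < κ ∧ #B < κ ∧ (⋂ j ∈ J, A j) \ B ⊆ S := fun S => Iff.rfl
  refine ⟨F, ?_, ?_, ?_, ?_⟩
  · constructor
    intro hbot
    have : (∅ : Set X) ∈ F := by rw [hbot]; exact Filter.mem_bot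
    obtain ⟨J, B, hJ, hB, h⟩ := (hmem _).1 this
    obtain ⟨i, hi⟩ := hlt J hJ.le
    have h1 := hA J hJ i hi
    have h2 : ((⋂ j ∈ J, A j) \ A i : Set X) ⊆ B := by
      rintro x ⟨hx, _⟩
      by_contra hxB
      exact h ⟨hx, hxB⟩
    exact absurd (lt_of_le_of_lt (h1.trans (Cardinal.mk_le_mk_of_subset h2)) hB) (lt_irrefl _)
  · intro S _ hS hSF
    have : ∀ s : S, ∃ (J : Set (Order.succ κ).ord.ToType) (B : Set X),
      #J < κ ∧ #B < κ ∧ (⋂ j ∈ J, A j) \ B ⊆ s.1 := fun s => (hmem _).1 (hSF s.1 s.2)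
    choose J B hJ hB h using this
    rw [hmem]
    refine ⟨⋃ s, J s, ⋃ s, B s,
      (Cardinal.card_iUnion_lt_iff_forall_of_isRegular hκ hS).2 hJ,
      (Cardinal.card_iUnion_lt_iff_forall_of_isRegular hκ hS).2 hB, ?_⟩
    rintro x ⟨hx, hxB⟩
    rw [mem_sInter]
    intro s hs
    simp only [mem_iInter] at hx
    apply h ⟨s, hs⟩
    refine ⟨?_, fun hb => hxB (mem_iUnion.2 ⟨_, hb⟩)⟩
    simp only [mem_iInter]
    exact fun j hj => hx j (mem_iUnion.2 ⟨_, hj⟩)
  · intro B hB
    rw [hmem]
    exact ⟨∅, B, hzero, hB, fun x hx => hx.2⟩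
  · intro hG
    have hAF : ∀ i, A i ∈ F := by
      intro i
      rw [hmem]
      refine ⟨{i}, ∅, ?_, hzero, ?_⟩
      · rw [Cardinal.mk_singleton]
        exact lt_of_lt_of_le Cardinal.one_lt_aleph0 hκ.aleph0_le
      · rintro x ⟨hx, _⟩
        simp only [mem_iInter] at hx
        exact hx i rfl
    obtain ⟨I, hI, hIF⟩ := hG A hAF
    obtain ⟨J, B, hJ, hB, h⟩ := (hmem _).1 hIF
    have : ∃ i ∈ I, i ∉ J := by
      by_contra hcon
      push Not at hcon
      have := Cardinal.mk_le_mk_of_subset (show I ⊆ J from hcon)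
      rw [hI] at this
      exact absurd (lt_of_le_of_lt this hJ) (lt_irrefl _)
    obtain ⟨i, hiI, hiJ⟩ := this
    have h1 := hA J hJ i hiJ
    have h2 : ((⋂ j ∈ J, A j) \ A i : Set X) ⊆ B := by
      rintro x ⟨hx, hxA⟩
      by_contra hxB
      have := h ⟨hx, hxB⟩
      simp only [mem_iInter] at this
      exact hxA (this i hiI)
    exact absurd (lt_of_le_of_lt (h1.trans (Cardinal.mk_le_mk_of_subset h2)) hB) (lt_irrefl _)

/-- Assume GCH.  Then for every regular uncountable cardinal `κ` there is a `κ`-complete filter on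
`κ` which does not have the Galvin property; the filter can be taken proper and containing every set
whose complement has fewer than `κ` elements. -/
theorem result (gch : GCH.{u}) (κ : Cardinal.{u}) (hκ : κ.IsRegular) (_hunc : ℵ₀ < κ) :
    ∃ F : Filter κ.ord.ToType, F.NeBot ∧ IsComplete κ F ∧
      (∀ B : Set κ.ord.ToType, #B < κ → Bᶜ ∈ F) ∧ ¬ HasGalvin κ F := by
  refine exists_filter hκ ?_ (by rw [Cardinal.mk_toType, Cardinal.card_ord])
  intro μ hμ
  rcases lt_or_ge μ ℵ₀ with h | h
  · exact (Cardinal.power_lt_aleph0 (Cardinal.natCast_lt_aleph0 (n := 2)) h).le.trans hκ.aleph0_le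
  · rw [gch μ h]
    exact Order.succ_le_of_lt hμ

end Pool.Agent.Results.MP_45cf3b_lc.GalvinFails
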